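import Pool.Agent.Helper17.PP.GoalsC3

/-! PROJECT PP, packet C_SM4. -/

namespace Pool.Agent.Helper47.PP

open Finset Filter Topology

/-- sum of `φ (i - a)` -/
theorem sum_shift (φ : ℕ → ℝ) (hφ : ∀ m, 0 ≤ φ m) (a J : ℕ) :
    ∑ i ∈ range J, φ (i - a) ≤ a * φ 0 + ∑ m ∈ range J, φ m := by
  have h1 : ∑ i ∈ range J, φ (i - a) ≤ ∑ i ∈ range (a + J), φ (i - a) :=
    sum_le_sum_of_subset_of_nonneg (range_mono (by omega)) fun i _ _ => hφ _
  refine h1.trans ?_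
  rw [sum_range_add]
  refine add_le_add ?_ ?_
  · refine (sum_le_sum (g := fun _ => φ 0) fun i hi => ?_).trans (by simp)
    rw [mem_range] at hi
    rw [Nat.sub_eq_zero_of_le hi.le]
  · exact le_of_eq (sum_congr rfl fun m _ => by rw [Nat.add_sub_cancel_left])

theorem min_bound {r : ℝ} (hr0 : 0 ≤ r) (hr1 : r ≤ 1) (hr2 : r ^ 2 = 1 / 2) (L i j : ℕ) :
    min 1 ((2 : ℝ) ^ (L + 1) / 2 ^ (i + j)) ≤ r ^ (i - (L + 1)) * r ^ (j - (L + 1)) := by
  have key : ∀ i j : ℕ, L + 1 < i →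
      (2 : ℝ) ^ (L + 1) / 2 ^ (i + j) ≤ r ^ (i - (L + 1)) * r ^ (j - (L + 1)) := by
    intro i j hi
    obtain ⟨m, rfl⟩ : ∃ m, i = L + 1 + m := ⟨i - (L + 1), by omega⟩
    have e1 : (2 : ℝ) ^ (L + 1) / 2 ^ (L + 1 + m + j) = (1 / 2) ^ (m + j) := by
      rw [show L + 1 + m + j = (L + 1) + (m + j) by ring, pow_add (2 : ℝ) (L + 1) (m + j),
        one_div, inv_pow]
      field_simp
    rw [e1, Nat.add_sub_cancel_left, ← pow_add, ← hr2, ← pow_mul]
    exact pow_le_pow_of_le_one hr0 hr1 (by omega)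
  by_cases hi : L + 1 < i
  · exact (min_le_right _ _).trans (key i j hi)
  · by_cases hj : L + 1 < j
    · refine (min_le_right _ _).trans ?_
      rw [add_comm i j, mul_comm (r ^ (i - (L + 1)))]
      exact key j i hj
    · rw [Nat.sub_eq_zero_of_le (by omega), Nat.sub_eq_zero_of_le (by omega)]
      simp

open Pool.Agent.Helper17.PP in
theorem c_sm4 : C_SM4 := by
  intro K K' ε hK hε
  set r : ℝ := Real.sqrt (1 / 2) with hr
  have hr2 : r ^ 2 = 1 / 2 := Real.sq_sqrt (by norm_num)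
  have hr0 : 0 ≤ r := Real.sqrt_nonneg _
  have hr1 : r < 1 := by nlinarith
  -- the sum of `(m + 1) ^ K r ^ m`
  have hsum : Summable fun m : ℕ => ((m : ℝ) + 1) ^ K * r ^ m := by
    have h1 : Summable fun n : ℕ => ((n : ℝ)) ^ K * r ^ n :=
      summable_pow_mul_geometric_of_norm_lt_one K (by rw [Real.norm_of_nonneg hr0]; exact hr1)
    have hrpos : 0 < r := by
      rcases hr0.lt_or_eq with h | h
      · exact h
      · rw [← h] at hr2; norm_num at hr2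
    have h2 := (summable_nat_add_iff 1).2 h1
    refine (h2.mul_right r⁻¹).congr fun n => ?_
    push_cast
    rw [pow_succ]
    field_simp
  set C : ℝ := ∑' m : ℕ, ((m : ℝ) + 1) ^ K * r ^ m with hC
  have hterm : ∀ m : ℕ, 0 ≤ ((m : ℝ) + 1) ^ K * r ^ m := fun m => by positivity
  have hC0 : 0 ≤ C := tsum_nonneg hterm
  -- the single sum
  have hS : ∀ L J : ℕ, ∑ i ∈ range J, ((i : ℝ) + 1) ^ K * r ^ (i - (L + 1)) ≤
      ((L : ℝ) + 2) ^ (K + 1) * (1 + C) := by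
    intro L J
    have h1 : ∀ i ∈ range J, ((i : ℝ) + 1) ^ K * r ^ (i - (L + 1)) ≤
        ((L : ℝ) + 2) ^ K * ((((i - (L + 1) : ℕ) : ℝ) + 1) ^ K * r ^ (i - (L + 1))) := by
      intro i _
      rw [← mul_assoc, ← mul_pow]
      refine mul_le_mul_of_nonneg_right (pow_le_pow_left₀ (by positivity) ?_ K) (by positivity)
      have h3 : i + 1 ≤ (L + 2) * (i - (L + 1) + 1) := by
        rcases le_or_gt i (L + 1) with h | h
        · rw [Nat.sub_eq_zero_of_le h]; omega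
        · obtain ⟨m, rfl⟩ : ∃ m, i = L + 1 + m := ⟨i - (L + 1), by omega⟩
          rw [Nat.add_sub_cancel_left]
          nlinarith
      have h4 : ((i + 1 : ℕ) : ℝ) ≤ (((L + 2) * (i - (L + 1) + 1) : ℕ) : ℝ) := by exact_mod_cast h3
      push_cast at h4
      exact_mod_cast h4
    refine (sum_le_sum h1).trans ?_
    rw [← mul_sum]
    have h2 := sum_shift (fun m => ((m : ℝ) + 1) ^ K * r ^ m) hterm (L + 1) J
    have h3 : ∑ m ∈ range J, ((m : ℝ) + 1) ^ K * r ^ m ≤ C :=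
      hsum.sum_le_tsum _ fun m _ => hterm m
    have h4 : ∑ i ∈ range J, (((i - (L + 1) : ℕ) : ℝ) + 1) ^ K * r ^ (i - (L + 1)) ≤
        ((L : ℝ) + 2) * (1 + C) := by
      have hL : (0 : ℝ) ≤ L := Nat.cast_nonneg L
      simp only [Nat.cast_zero, zero_add, one_pow, pow_zero, mul_one] at h2
      push_cast at h2 ⊢
      nlinarith [mul_nonneg hL hC0]
    rw [pow_succ, mul_assoc]
    exact mul_le_mul_of_nonneg_left h4 (by positivity)
  -- the limit
  set q : ℝ := (2 : ℝ) ^ (-(1 : ℝ) / K) with hq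
  have hKr : (0 : ℝ) < K := by exact_mod_cast hK
  have hq0 : 0 < q := Real.rpow_pos_of_pos (by norm_num) _
  have hq1 : q < 1 := Real.rpow_lt_one_of_one_lt_of_neg (by norm_num)
    (div_neg_of_neg_of_pos (by norm_num) hKr)
  set M : ℕ := 2 * (K' + 2 * (K + 1)) with hM
  have hlim : Tendsto (fun s : ℕ => (1 + C) ^ 2 * (((s : ℝ) + 2) ^ M * q ^ s)) atTop (𝓝 0) := by
    have h1 : Tendsto (fun n : ℕ => ((n : ℝ)) ^ M * q ^ n) atTop (𝓝 0) :=
      tendsto_pow_const_mul_const_pow_of_abs_lt_one M (by rw [abs_of_pos hq0]; exact hq1)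
    have h2 := (tendsto_add_atTop_iff_nat 2).2 h1
    have h3 := (h2.mul_const (q⁻¹ ^ 2)).const_mul ((1 + C) ^ 2)
    simp only [zero_mul, mul_zero] at h3
    refine h3.congr fun s => ?_
    push_cast
    rw [pow_add]
    field_simp
  obtain ⟨s₀, hs₀⟩ := eventually_atTop.1 (hlim.eventually (gt_mem_nhds hε))
  refine ⟨s₀ * s₀, fun L hL J => ?_⟩
  set s : ℕ := Nat.sqrt L with hs
  have hss : s₀ ≤ s := by
    rw [hs, Nat.le_sqrt]; exact hL
  have hsL : L + 2 ≤ (s + 2) ^ 2 := by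
    have := Nat.lt_succ_sqrt L
    rw [← hs] at this
    simp only [Nat.succ_eq_add_one] at this
    nlinarith
  have hbound : ∀ i ∈ Ico s J, ∀ j ∈ Ico s J,
      ((L : ℝ) + 2) ^ K' * ((i : ℝ) + j) ^ K * (2 : ℝ) ^ (-(min i j : ℝ) / K) *
        min 1 (2 ^ (L + 1) / 2 ^ (i + j)) ≤
      ((L : ℝ) + 2) ^ K' * q ^ s * ((((i : ℝ) + 1) ^ K * r ^ (i - (L + 1))) *
        (((j : ℝ) + 1) ^ K * r ^ (j - (L + 1)))) := by
    intro i hi j hj
    rw [mem_Ico] at hi hj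
    have h1 : (2 : ℝ) ^ (-(min i j : ℝ) / K) ≤ q ^ s := by
      rw [hq, ← Real.rpow_natCast, ← Real.rpow_mul (by norm_num)]
      refine Real.rpow_le_rpow_of_exponent_le (by norm_num) ?_
      have h2 : (s : ℝ) ≤ min (i : ℝ) (j : ℝ) := by
        refine le_min ?_ ?_
        · exact_mod_cast hi.1
        · exact_mod_cast hj.1
      rw [div_mul_eq_mul_div, neg_one_mul]
      exact div_le_div_of_nonneg_right (neg_le_neg h2) hKr.le
    have h2 := min_bound hr0 hr1.le hr2 L i j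
    have h3 : ((i : ℝ) + j) ^ K ≤ ((i : ℝ) + 1) ^ K * ((j : ℝ) + 1) ^ K := by
      rw [← mul_pow]
      refine pow_le_pow_left₀ (by positivity) ?_ K
      have hi0 : (0 : ℝ) ≤ i := Nat.cast_nonneg i
      have hj0 : (0 : ℝ) ≤ j := Nat.cast_nonneg j
      nlinarith [mul_nonneg hi0 hj0]
    have hm0 : (0 : ℝ) ≤ min 1 ((2 : ℝ) ^ (L + 1) / 2 ^ (i + j)) := by positivity
    calc ((L : ℝ) + 2) ^ K' * ((i : ℝ) + j) ^ K * (2 : ℝ) ^ (-(min i j : ℝ) / K) *
          min 1 (2 ^ (L + 1) / 2 ^ (i + j))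
        ≤ ((L : ℝ) + 2) ^ K' * (((i : ℝ) + 1) ^ K * ((j : ℝ) + 1) ^ K) * q ^ s *
          (r ^ (i - (L + 1)) * r ^ (j - (L + 1))) := by
          refine mul_le_mul (mul_le_mul (mul_le_mul_of_nonneg_left h3 (by positivity)) h1
            (by positivity) (by positivity)) h2 hm0 (by positivity)
      _ = _ := by ring
  refine (sum_le_sum fun i hi => sum_le_sum fun j hj => hbound i hi j hj).trans ?_
  set a : ℕ → ℝ := fun i => ((i : ℝ) + 1) ^ K * r ^ (i - (L + 1)) with ha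
  have ha0 : ∀ i, 0 ≤ a i := fun i => by simp only [ha]; positivity
  have hfac : ∑ i ∈ Ico s J, ∑ j ∈ Ico s J, ((L : ℝ) + 2) ^ K' * q ^ s * (a i * a j) =
      ((L : ℝ) + 2) ^ K' * q ^ s * ((∑ i ∈ Ico s J, a i) * ∑ j ∈ Ico s J, a j) := by
    rw [sum_mul_sum, mul_sum]
    refine sum_congr rfl fun i _ => ?_
    rw [mul_sum]
  have hfac' : ∑ i ∈ Ico s J, ∑ j ∈ Ico s J, ((L : ℝ) + 2) ^ K' * q ^ s *
      ((((i : ℝ) + 1) ^ K * r ^ (i - (L + 1))) * (((j : ℝ) + 1) ^ K * r ^ (j - (L + 1)))) =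
      ((L : ℝ) + 2) ^ K' * q ^ s * ((∑ i ∈ Ico s J, a i) * ∑ j ∈ Ico s J, a j) := hfac
  rw [hfac']
  have hA : ∑ i ∈ Ico s J, a i ≤ ((L : ℝ) + 2) ^ (K + 1) * (1 + C) := by
    refine le_trans ?_ (hS L J)
    exact sum_le_sum_of_subset_of_nonneg
      (fun i hi => by rw [mem_Ico] at hi; exact mem_range.2 hi.2) fun i _ _ => ha0 i
  have hA0 : 0 ≤ ∑ i ∈ Ico s J, a i := sum_nonneg fun i _ => ha0 i
  have h5 : (∑ i ∈ Ico s J, a i) * ∑ j ∈ Ico s J, a j ≤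
      (((L : ℝ) + 2) ^ (K + 1) * (1 + C)) * (((L : ℝ) + 2) ^ (K + 1) * (1 + C)) :=
    mul_le_mul hA hA hA0 (by positivity)
  have h6 : ((L : ℝ) + 2) ^ (K' + 2 * (K + 1)) ≤ ((s : ℝ) + 2) ^ M := by
    rw [hM, pow_mul]
    refine pow_le_pow_left₀ (by positivity) ?_ _
    exact_mod_cast hsL
  calc ((L : ℝ) + 2) ^ K' * q ^ s * ((∑ i ∈ Ico s J, a i) * ∑ j ∈ Ico s J, a j)
      ≤ ((L : ℝ) + 2) ^ K' * q ^ s * ((((L : ℝ) + 2) ^ (K + 1) * (1 + C)) *
        (((L : ℝ) + 2) ^ (K + 1) * (1 + C))) := mul_le_mul_of_nonneg_left h5 (by positivity)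
    _ = (1 + C) ^ 2 * (((L : ℝ) + 2) ^ (K' + 2 * (K + 1)) * q ^ s) := by
        rw [pow_add]; ring
    _ ≤ (1 + C) ^ 2 * (((s : ℝ) + 2) ^ M * q ^ s) := by
        refine mul_le_mul_of_nonneg_left (mul_le_mul_of_nonneg_right h6 (by positivity))
          (by positivity)
    _ ≤ ε := (hs₀ s hss).le

end Pool.Agent.Helper47.PP
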